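import Pool.Agent.Y160.SQ.All
import Pool.Agent.Y160.SL.Curve
import Pool.Agent.Y160.SL.Conv

/-!
# The criterion for the Tate conjecture at `p` for `w ^ q = f(x, t)`: compact form
-/

set_option autoImplicit false
set_option linter.all false

open Polynomial IsDedekindDomain WithZero
open scoped nonZeroDivisors

namespace Pool.Agent.Y160.HI

open Pool.Agent.TH115.GD (IsTower)
open Pool.Agent.Y160.SE (SmoothC IsPw)
open Pool.Agent.Y160.SL (TateAt IsBranch DivBy ByPoints)

section val

variable {R N : Type} [CommRing R] [IsDedekindDomain R] [Field N] [Algebra R N]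
  [IsFractionRing R N]

theorem ideal_pow {q : ℕ} {r : R} (hr : r ≠ 0)
    (h : ∀ v : HeightOneSpectrum R, IsPw q (v.intValuation r)) :
    ∃ I : Ideal R, I ^ q = Ideal.span {r} := by
  classical
  have hI : Ideal.span {r} ≠ 0 := by
    rw [Ne, Ideal.zero_eq_bot, Ideal.span_singleton_eq_bot]
    exact hr
  have hdvd : ∀ v : HeightOneSpectrum R,
      q ∣ (Associates.mk v.asIdeal).count (Associates.mk (Ideal.span {r})).factors := by
    intro v
    obtain ⟨δ, hδ⟩ := h v
    rw [HeightOneSpectrum.intValuation_if_neg v hr] at hδ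
    have hδ0 : δ ≠ 0 ∨ q = 0 := by
      by_contra hc
      push Not at hc
      rw [hc.1, zero_pow hc.2] at hδ
      exact exp_ne_zero hδ
    rcases hδ0 with hδ0 | hq
    · obtain ⟨n, hn⟩ : ∃ n : ℤ, δ = exp n := ⟨log δ, (exp_log hδ0).symm⟩
      rw [hn, ← exp_nsmul, exp_inj] at hδ
      have h1 : (q : ℤ) ∣ ((Associates.mk v.asIdeal).count
          (Associates.mk (Ideal.span {r})).factors : ℤ) := by
        refine ⟨-n, ?_⟩
        rw [nsmul_eq_mul] at hδ
        linarith
      exact_mod_cast h1
    · rw [hq, pow_zero, ← exp_zero, exp_inj] at hδ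
      rw [hq]
      have : ((Associates.mk v.asIdeal).count (Associates.mk (Ideal.span {r})).factors : ℤ) = 0 := by
        linarith
      exact zero_dvd_iff.2 (by exact_mod_cast this)
  let c : HeightOneSpectrum R → ℕ := fun v =>
    (Associates.mk v.asIdeal).count (Associates.mk (Ideal.span {r})).factors
  have hfin : (Function.mulSupport fun v : HeightOneSpectrum R => v.asIdeal ^ (c v / q)).Finite := by
    refine (Ideal.hasFiniteMulSupport hI).subset fun v hv => ?_
    rw [Function.mem_mulSupport] at hv ⊢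
    intro h1
    apply hv
    have h2 : c v = 0 := by
      by_contra h3
      have h4 : v.asIdeal ^ c v = ⊤ := by
        rw [← Ideal.one_eq_top, ← h1, HeightOneSpectrum.maxPowDividing]
      have h5 : v.asIdeal ^ c v ≤ v.asIdeal := Ideal.pow_le_self h3
      rw [h4] at h5
      exact v.isPrime.ne_top (top_le_iff.1 h5)
    rw [h2, Nat.zero_div, pow_zero]
  refine ⟨∏ᶠ v : HeightOneSpectrum R, v.asIdeal ^ (c v / q), ?_⟩
  rw [finprod_pow hfin]
  have h1 : (fun v : HeightOneSpectrum R => (v.asIdeal ^ (c v / q)) ^ q) =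
      fun v : HeightOneSpectrum R => v.maxPowDividing (Ideal.span {r}) := by
    funext v
    rw [HeightOneSpectrum.maxPowDividing, ← pow_mul, Nat.div_mul_cancel (hdvd v)]
  rw [h1, Ideal.finprod_heightOneSpectrum_factorization hI]

theorem sub_pow {q : ℕ} (hq : 0 < q) {z : N} (hz : z ≠ 0)
    (h : ∀ v : HeightOneSpectrum R, IsPw q (v.valuation N z)) :
    ∃ I : Submodule R N, I ^ q = Submodule.span R {z} := by
  obtain ⟨a, b, hb, hab⟩ := IsFractionRing.div_surjective (A := R) z
  have hb0 : b ≠ 0 := nonZeroDivisors.ne_zero hb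
  have hbN : algebraMap R N b ≠ 0 := by
    rw [Ne, map_eq_zero_iff _ (IsFractionRing.injective R N)]
    exact hb0
  have ha0 : a ≠ 0 := by
    rintro rfl
    rw [map_zero, zero_div] at hab
    exact hz hab.symm
  have hzr : algebraMap R N (a * b ^ (q - 1)) = z * algebraMap R N b ^ q := by
    rw [map_mul, map_pow, ← hab]
    obtain ⟨q', rfl⟩ : ∃ q', q = q' + 1 := ⟨q - 1, by omega⟩
    rw [Nat.add_sub_cancel, pow_succ]
    field_simp
  obtain ⟨I, hI⟩ := ideal_pow (q := q) (mul_ne_zero ha0 (pow_ne_zero (q - 1) hb0)) (fun v => by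
    have h1 := HeightOneSpectrum.valuation_of_algebraMap (K := N) v (a * b ^ (q - 1))
    rw [← h1]
    show IsPw q (v.valuation N (algebraMap R N (a * b ^ (q - 1))))
    rw [hzr, map_mul, map_pow]
    obtain ⟨δ, hδ⟩ := h v
    exact ⟨δ * v.valuation N (algebraMap R N b), by rw [hδ, mul_pow]⟩)
  refine ⟨IsLocalization.coeSubmodule N I * Submodule.span R {(algebraMap R N b)⁻¹}, ?_⟩
  have hpow : ∀ n : ℕ, IsLocalization.coeSubmodule N (I ^ n) = IsLocalization.coeSubmodule N I ^ n := by
    intro n
    induction n with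
    | zero => rw [pow_zero, pow_zero, Ideal.one_eq_top, IsLocalization.coeSubmodule_top]
    | succ n ih => rw [pow_succ, pow_succ, IsLocalization.coeSubmodule_mul, ih]
  rw [mul_pow, ← hpow, hI, IsLocalization.coeSubmodule_span_singleton, Submodule.span_pow,
    Set.singleton_pow, Submodule.span_mul_span, Set.singleton_mul_singleton, hzr]
  congr 2
  rw [inv_pow, mul_assoc, mul_inv_cancel₀ (pow_ne_zero _ hbN), mul_one]

end val

/-- The criterion in compact form. -/
theorem crit {p m : ℕ} (hp : p.Prime) (hm : 0 < m) {k k' K F : Type} [Field k] [Field k']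
    [Algebra k k'] [Field K] [Algebra k[X] K] [Field F] [Algebra k'[X] F] [IsFractionRing k'[X] F]
    [Algebra K F] (hT : IsTower k k' K F) {ζ : k} (hζ : IsPrimitiveRoot ζ (p ^ m)) {f : k[X][X]}
    (hf : IsBranch p f K F)
    (hfun : ∀ z : AdjoinRoot (f.map (algebraMap k[X] K)), z ≠ 0 → DivBy k[X] (p ^ m) z →
      ByPoints k (p ^ m) (f.map (algebraMap k[X] K)) z) :
    TateAt (F := F) p (p ^ m) k' (f.map (algebraMap k[X] K)) := by
  haveI := hT.fracK
  have hirrK : Irreducible (f.map (algebraMap k[X] K)) :=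
    Polynomial.Monic.irreducible_of_irreducible_map (algebraMap K F) _ (hf.monic.map _) hf.irr
  haveI : Fact (Irreducible (f.map (algebraMap k[X] K))) := ⟨hirrK⟩
  set f1 := f.map (algebraMap k[X] K) with hf1
  have hf10 : f1 ≠ 0 := hirrK.ne_zero
  haveI : FiniteDimensional K (AdjoinRoot f1) := (AdjoinRoot.powerBasis hf10).finite
  have htop : IntermediateField.adjoin K {AdjoinRoot.root f1} = ⊤ := by
    apply IntermediateField.toSubalgebra_injective
    rw [IntermediateField.adjoin_simple_toSubalgebra_of_isAlgebraic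
      (Algebra.IsAlgebraic.isAlgebraic _), AdjoinRoot.adjoinRoot_eq_top,
      IntermediateField.top_toSubalgebra]
  have hroot : aeval (AdjoinRoot.root f1) f1 = 0 := by
    rw [AdjoinRoot.aeval_eq, AdjoinRoot.mk_self]
  have hs : IsSeparable K (AdjoinRoot.root f1) := hf.sep.of_dvd (minpoly.dvd K _ hroot)
  haveI : Algebra.IsSeparable K (AdjoinRoot f1) := by
    have f3 : Algebra.IsSeparable K (IntermediateField.adjoin K {AdjoinRoot.root f1}) :=
      (IntermediateField.isSeparable_adjoin_simple_iff_isSeparable K _).2 hs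
    rw [htop] at f3
    exact Algebra.IsSeparable.of_algHom K (⊤ : IntermediateField K (AdjoinRoot f1))
      (IntermediateField.topEquiv (F := K) (E := AdjoinRoot f1)).symm.toAlgHom
  haveI : IsDedekindDomain (integralClosure k[X] (AdjoinRoot f1)) :=
    integralClosure.isDedekindDomain k[X] K (AdjoinRoot f1)
  haveI : IsFractionRing (integralClosure k[X] (AdjoinRoot f1)) (AdjoinRoot f1) :=
    integralClosure.isFractionRing_of_finite_extension K (AdjoinRoot f1)
  have hq : 0 < p ^ m := pow_pos hp.pos m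
  refine Pool.Agent.Y160.SL.tateAt_of ?_
  refine Pool.Agent.Y160.SQ.mainC (R := integralClosure k[X] (AdjoinRoot f1)) hp hm rfl
    Pool.Agent.Y160.SQ.hyps Pool.Agent.Y160.SQ.lhyps hT hζ hf.monic hf.cop hf.sep hf.smooth hf.irr
    hroot htop ?_
  intro z hz hv
  obtain ⟨I, hI⟩ := sub_pow (R := integralClosure k[X] (AdjoinRoot f1)) hq hz hv
  obtain ⟨u, g, S, hu, hg, hS, hzz⟩ := hfun z hz ⟨I, hI⟩
  refine ⟨u, g, S, hu, hg.ne_zero, hS, ?_⟩
  rw [hzz, AdjoinRoot.aeval_eq]
  rfl

end Pool.Agent.Y160.HI
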