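import Pool.Agent.Y160.HI.Fam
import Pool.Agent.Y160.SL.Fin

/-!
# The families over finite fields
-/

set_option autoImplicit false
set_option linter.all false

open Polynomial IsDedekindDomain WithZero
open scoped nonZeroDivisors

namespace Pool.Agent.Y160.HI

open Pool.Agent.TH115.GD (IsTower)
open Pool.Agent.Y160.FT
open Pool.Agent.Y160.SL (nest surf IsBasisAt IsResidue IsBinom ShaBasis finSurf)

section tower

/-- There is a tower. -/
theorem exists_tower (k K : Type) [Field k] [Field K] [Algebra k[X] K] [IsFractionRing k[X] K] :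
    ∃ (k' F : Type) (_ : Field k') (_ : Algebra k k') (_ : Field F) (_ : Algebra k'[X] F)
      (_ : IsFractionRing k'[X] F) (_ : Algebra K F), IsTower k k' K F := by
  let φ : k[X] →+* FractionRing (SeparableClosure k)[X] :=
    (algebraMap (SeparableClosure k)[X] (FractionRing (SeparableClosure k)[X])).comp
      (mapRingHom (algebraMap k (SeparableClosure k)))
  have hφ : Function.Injective φ :=
    (IsFractionRing.injective (SeparableClosure k)[X] (FractionRing (SeparableClosure k)[X])).comp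
      (Polynomial.map_injective _ (algebraMap k (SeparableClosure k)).injective)
  letI : Algebra K (FractionRing (SeparableClosure k)[X]) :=
    (IsFractionRing.lift hφ : K →+* FractionRing (SeparableClosure k)[X]).toAlgebra
  refine ⟨SeparableClosure k, FractionRing (SeparableClosure k)[X], inferInstance, inferInstance,
    inferInstance, inferInstance, inferInstance, inferInstance, ⟨inferInstance, inferInstance, ?_⟩⟩
  intro p
  exact IsFractionRing.lift_algebraMap hφ p

end tower

section nest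

variable {k : Type} [Field k]

theorem nest_zero (p : ℕ) (n : ℕ) :
    nest p (List.replicate n ((0 : k), (1 : k))) = X ^ (p ^ n) := by
  induction n with
  | zero => rw [List.replicate_zero, pow_zero, pow_one]; rfl
  | succ n ih =>
    rw [List.replicate_succ]
    show C (0 : k) + C (1 : k) * nest p (List.replicate n ((0 : k), (1 : k))) ^ p = _
    rw [ih, C_0, C_1, zero_add, one_mul, ← pow_mul, ← pow_succ]

theorem nest_cons (p : ℕ) (n : ℕ) (β c : k) :
    nest p ((β, c) :: List.replicate n ((0 : k), (1 : k))) = C β + C c * X ^ (p ^ (n + 1)) := by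
  show C β + C c * nest p (List.replicate n ((0 : k), (1 : k))) ^ p = _
  rw [nest_zero, ← pow_mul, ← pow_succ]

end nest

section fin

variable {k : Type} [Field k]

/-- The conclusions for the family. -/
theorem finFam {p q s m : ℕ} (hp : p.Prime) (hq : q = p ^ (s + 1)) (hm : 0 < m)
    (hcop : p.Coprime m) {ζ : k} (hζ : IsPrimitiveRoot ζ q) {ρ γ : Fin m → k} {β τ c : k}
    (hR : IsResidue p q ρ γ β) {M : ℕ} (hB : IsBinom p M ρ γ τ) {d : ℕ} (hd : 0 < d) (hc : c ≠ 0)
    (K : Type) [Field K] [Algebra k[X] K] [IsFractionRing k[X] K] :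
    ShaBasis p q (m - 1) k ((finSurf q M (p ^ d) ρ τ β c).map (algebraMap k[X] K)) := by
  obtain ⟨hM, hMk, hirr⟩ := hB
  obtain ⟨n, rfl⟩ : ∃ n, d = n + 1 := ⟨d - 1, by omega⟩
  have hM0 : 0 < M := by
    rcases Nat.eq_zero_or_pos M with h | h
    · exact absurd (by rw [h, Nat.cast_zero]) hMk
    · exact h
  have hC := Pool.Agent.Y691.FT2.stSplit p q s m M k ρ γ β τ c (List.replicate n 1) hp hq hcop hM hm
    hMk hR.ne hc (fun a ha => by
      rw [List.eq_of_mem_replicate ha]; exact one_ne_zero) hR.prod hR.injρ hR.injγ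
    (fun i => (hirr i).1) (fun i => (hirr i).2) hR.same hR.rows hR.cols
  have e : ((C β, c) :: (List.replicate n (1 : k)).map fun a' => ((0 : k[X]), a')) =
      (((β, c) :: List.replicate n ((0 : k), (1 : k))).map fun x => ((C x.1 : k[X]), x.2)) := by
    rw [List.map_cons, List.map_replicate, List.map_replicate, C_0]
  rw [e] at hC
  obtain ⟨k', F, _, _, _, _, _, _, hT⟩ := exists_tower k K
  have h := conclB (F := F) (k' := k') (K := K) hT hp hq hζ hC.base (asm2 hp hq hζ hC) hm
    (fun i => (X ^ M + C (τ - ρ i) : k[X])) (fun i => ⟨(hirr i).1, monic_X_pow_add_C _ hM0.ne'⟩)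
    (by
      intro i j hij
      have h1 : C (τ - ρ i) = C (τ - ρ j) := add_left_cancel hij
      exact hR.injρ (sub_right_injective (C_injective h1))) rfl
  rw [nest_cons] at h
  exact ⟨h.sha, h.basis⟩

/-- Existence. -/
theorem finEx {p s m p₀ : ℕ} (hp : p.Prime) (hm : 0 < m) (hcop : p.Coprime m) (hp₀ : p₀.Prime)
    (hne : p₀ ≠ p) (hcop₀ : p₀.Coprime m) :
    ∃ (k : Type) (_ : Field k) (ζ : k) (ρ γ : Fin m → k) (β τ : k) (N : ℕ), Finite k ∧ CharP k p₀ ∧
      IsPrimitiveRoot ζ (p ^ (s + 1)) ∧ IsResidue p (p ^ (s + 1)) ρ γ β ∧ 1 < N ∧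
      ∀ e : ℕ, IsBinom p (N ^ e) ρ γ τ := by
  obtain ⟨k, _, ζ, ρ, γ, β, τ, N, h1, h2, h3, h4, h5, h6, h7, h8, h9, h10, h11, h12, h13, h14, h15⟩ :=
    Pool.Agent.Y232.FT2.stExF Pool.Agent.Y823.FT2.stCnt p (p ^ (s + 1)) s m p₀ hp rfl hp₀ hne hcop
      hcop₀ hm
  refine ⟨k, inferInstance, ζ, ρ, γ, β, τ, N, h1, h2, h3, ⟨h7, h8, h9, h10, h13, h14, h15⟩, h4,
    fun e => ⟨Nat.Coprime.pow_right _ h5, ?_, fun i => ⟨h11 e i, h12 e i⟩⟩⟩
  intro h0
  haveI := h2
  rw [CharP.cast_eq_zero_iff k p₀] at h0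
  have h16 := Nat.Coprime.pow_right e h6
  have h17 := Nat.Coprime.eq_one_of_dvd h16 h0
  exact hp₀.one_lt.ne' h17

end fin

end Pool.Agent.Y160.HI
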