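import Pool.Agent.Y160.FT2.All
import Pool.Agent.Y160.HI.Crit
import Pool.Agent.Y160.HI.Fin
import Pool.Agent.Y160.SL.CurveS

/-!
# The criterion for the Tate-Shafarevich group in compact form
-/

set_option autoImplicit false
set_option linter.all false

open Polynomial IsDedekindDomain WithZero
open scoped nonZeroDivisors

namespace Pool.Agent.Y160.HI

open Pool.Agent.TH115.GD (IsTower)
open Pool.Agent.Y160.SE (SmoothC IsPw)
open Pool.Agent.Y160.SL (ShaTriv IsBranchCurve DivBy IsPoint SpannedBy Filled GeneratesAt)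
open Pool.Agent.Y160.RK (ptCl spanD gen_iter mem_spanD)

/-- The criterion. -/
theorem critSha {p m : ℕ} (hp : p.Prime) (hm : 0 < m) {k K : Type} [Field k]
    [Field K] [Algebra k[X] K] [IsFractionRing k[X] K] {ζ : k} (hζ : IsPrimitiveRoot ζ (p ^ m))
    {f : k[X][X]} (hf : IsBranchCurve p f K) {n : ℕ} (b c : Fin n → K[X])
    (hbc : ∀ i, IsPoint (p ^ m) (f.map (algebraMap k[X] K)) (b i) (c i))
    (hfun : Filled k (p ^ m) (f.map (algebraMap k[X] K)) b) :
    ShaTriv p (p ^ m) k[X] (f.map (algebraMap k[X] K)) ∧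
      ∃ D : Fin n × Fin (p ^ m - 1) → SL.Jac (p ^ m) (f.map (algebraMap k[X] K)) K,
        GeneratesAt p D := by
  obtain ⟨k', F, _, _, _, _, _, _, hT⟩ := exists_tower k K
  have hirrK : Irreducible (f.map (algebraMap k[X] K)) := hf.irr
  haveI : Fact (Irreducible (f.map (algebraMap k[X] K))) := ⟨hirrK⟩
  generalize hf1 : f.map (algebraMap k[X] K) = f1 at *
  have hf10 : f1 ≠ 0 := hirrK.ne_zero
  haveI : FiniteDimensional K (AdjoinRoot f1) := (AdjoinRoot.powerBasis hf10).finite
  have htop : IntermediateField.adjoin K {AdjoinRoot.root f1} = ⊤ := by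
    apply IntermediateField.toSubalgebra_injective
    rw [IntermediateField.adjoin_simple_toSubalgebra_of_isAlgebraic
      (Algebra.IsAlgebraic.isAlgebraic _), AdjoinRoot.adjoinRoot_eq_top,
      IntermediateField.top_toSubalgebra]
  have hroot : aeval (AdjoinRoot.root f1) f1 = 0 := by
    rw [AdjoinRoot.aeval_eq, AdjoinRoot.mk_self]
  have hsep : f1.Separable := hf1 ▸ hf.sep
  have hs : IsSeparable K (AdjoinRoot.root f1) := hsep.of_dvd (minpoly.dvd K _ hroot)
  haveI : Algebra.IsSeparable K (AdjoinRoot f1) := by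
    have f3 : Algebra.IsSeparable K (IntermediateField.adjoin K {AdjoinRoot.root f1}) :=
      (IntermediateField.isSeparable_adjoin_simple_iff_isSeparable K _).2 hs
    rw [htop] at f3
    exact Algebra.IsSeparable.of_algHom K (⊤ : IntermediateField K (AdjoinRoot f1))
      (IntermediateField.topEquiv (F := K) (E := AdjoinRoot f1)).symm.toAlgHom
  haveI : IsDedekindDomain (integralClosure k[X] (AdjoinRoot f1)) :=
    integralClosure.isDedekindDomain k[X] K (AdjoinRoot f1)
  haveI : IsFractionRing (integralClosure k[X] (AdjoinRoot f1)) (AdjoinRoot f1) :=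
    integralClosure.isFractionRing_of_finite_extension K (AdjoinRoot f1)
  have hq : 0 < p ^ m := pow_pos hp.pos m
  have hz' : ∀ z : AdjoinRoot f1, z ≠ 0 →
      (∀ v : HeightOneSpectrum (integralClosure k[X] (AdjoinRoot f1)),
        IsPw (p ^ m) (v.valuation (AdjoinRoot f1) z)) → SpannedBy k (p ^ m) f1 b z := by
    intro z hz hv
    obtain ⟨I, hI⟩ := sub_pow (R := integralClosure k[X] (AdjoinRoot f1)) hq hz hv
    exact hfun z hz ⟨I, hI⟩
  subst hf1
  have hg := (SH.good_of hp hm rfl hT hζ hf.monic hf.cop hf.sep).1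
  refine ⟨SL.shaTriv_of ?_, ?_⟩
  · refine SH.mainSha (R := integralClosure k[X] (AdjoinRoot (f.map (algebraMap k[X] K)))) hp hm rfl
      SQ.hyps SQ.lhyps Pool.Agent.Y141.SH.stShaLoc hT hζ hf.monic hf.cop hf.sep hf.smooth hirrK
      hroot htop ?_
    intro z hz hv
    obtain ⟨u, g, e, hu, hg, hzz⟩ := hz' z hz hv
    refine ⟨u, g, ∑ i, e i • {b i}, hu, hg.ne_zero, ?_, ?_⟩
    · intro b' hb'
      obtain ⟨i, -, hi⟩ := Multiset.mem_sum.1 hb'
      have h1 := Multiset.mem_of_mem_nsmul hi
      rw [Multiset.mem_singleton] at h1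
      rw [h1]
      exact ⟨(hbc i).monic, c i, (hbc i).dvd⟩
    · rw [hzz, AdjoinRoot.aeval_eq]
      congr 2
      rw [Multiset.prod_sum]
      refine Finset.prod_congr rfl fun i _ => ?_
      rw [Multiset.prod_nsmul, Multiset.prod_singleton]
  · refine ⟨fun i => ((SQ.sg hg K) ^ (i.2 : ℕ)) (ptCl (p ^ m) (f.map (algebraMap k[X] K))
      (b i.1, c i.1)), fun N x => ?_⟩
    refine gen_iter SQ.hyps hg hp rfl (fun i : Fin n => ptCl (p ^ m) (f.map (algebraMap k[X] K))
      (b i, c i)) ?_ N x
    intro x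
    obtain ⟨T, y, hTP, hx⟩ := SH.mainGen
      (R := integralClosure k[X] (AdjoinRoot (f.map (algebraMap k[X] K)))) hp hm rfl
      SQ.hyps SQ.lhyps FT.inj_all Pool.Agent.Y141.SH.stShaLoc hT hζ hg hf.monic hf.cop hf.sep hf.smooth
      hirrK hroot htop (Set.range fun i => (b i, c i))
      (by rintro _ ⟨i, rfl⟩; exact ⟨(hbc i).irr, (hbc i).monic, (hbc i).ndvd, (hbc i).dvd⟩)
      (by
        intro z hz hv
        obtain ⟨u, g, e, hu, hg, hzz⟩ := hz' z hz hv
        refine ⟨u, g, ∑ i, e i • {(b i, c i)}, hu, hg.ne_zero, ?_, ?_⟩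
        · intro b' hb'
          obtain ⟨i, -, hi⟩ := Multiset.mem_sum.1 hb'
          have h1 := Multiset.mem_of_mem_nsmul hi
          rw [Multiset.mem_singleton] at h1
          rw [h1]
          exact ⟨i, rfl⟩
        · rw [hzz, SQ.dvP_eval]
          congr 1
          have h1 : ∀ S : Finset (Fin n), ((∑ j ∈ S, e j • ({(b j, c j)} : Multiset (K[X] × K[X]))).map
              fun P => aeval (AdjoinRoot.root (f.map (algebraMap k[X] K))) P.1).prod =
              ∏ j ∈ S, aeval (AdjoinRoot.root (f.map (algebraMap k[X] K))) (b j) ^ e j := by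
            intro S
            induction S using Finset.induction_on with
            | empty => rw [Finset.sum_empty, Finset.prod_empty, Multiset.map_zero, Multiset.prod_zero]
            | insert j S hj ih =>
              rw [Finset.sum_insert hj, Finset.prod_insert hj, Multiset.map_add, Multiset.prod_add, ih,
                Multiset.map_nsmul, Multiset.prod_nsmul, Multiset.map_singleton,
                Multiset.prod_singleton]
          rw [h1, ← AdjoinRoot.aeval_eq, map_prod]
          refine Finset.prod_congr rfl fun i _ => ?_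
          rw [map_pow]) x
    refine ⟨y, ?_⟩
    rw [hx, add_sub_cancel_right]
    refine AddSubgroup.multiset_sum_mem _ _ fun c' hc' => ?_
    obtain ⟨P, hP, rfl⟩ := Multiset.mem_map.1 hc'
    obtain ⟨j, rfl⟩ := hTP P hP
    exact mem_spanD hg (fun i : Fin n => ptCl (p ^ m) (f.map (algebraMap k[X] K)) (b i, c i)) j

end Pool.Agent.Y160.HI
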