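import Pool.Agent.Y160.FT2.All
import Pool.Agent.Y160.SL.Fam
import Pool.Agent.Y160.SL.Conv

/-!
# The families over the fraction field of a Dedekind domain
-/

set_option autoImplicit false
set_option linter.all false

open Polynomial IsDedekindDomain WithZero

namespace Pool.Agent.Y160.HI

open Pool.Agent.TH115.GD (IsTower)
open Pool.Agent.Y160.FT
open Pool.Agent.Y160.SL (nest surf IsBasisAt IsData Concl Large)

section poly

variable {k : Type} [Field k]

theorem EE_nest (p : ℕ) (l : List (k × k)) :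
    EE p (mapRingHom C) (l.map fun x => ((C x.1 : k[X]), x.2)) (C X : k[X][X]) =
      C (nest p l) := by
  induction l with
  | nil => rfl
  | cons x l ih =>
    obtain ⟨b, a⟩ := x
    show (mapRingHom C) (C b : k[X]) + (mapRingHom C) (C a : k[X]) *
      (EE p (mapRingHom C) (l.map fun x => ((C x.1 : k[X]), x.2)) (C X : k[X][X])) ^ p =
      C (C b + C a * nest p l ^ p)
    rw [ih, C_add, C_mul, C_pow, coe_mapRingHom, map_C, map_C]

theorem ff_surf (p q : ℕ) (g : k[X]) (l : List (k × k)) :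
    ff p q g (l.map fun x => ((C x.1 : k[X]), x.2)) = surf q g (nest p l) := by
  unfold ff surf
  rw [EE_nest, C_pow]

end poly

section concl

variable {k k' K F : Type} [Field k] [Field k'] [Algebra k k'] [Field K] [Algebra k[X] K]
  [Field F] [Algebra k'[X] F] [IsFractionRing k'[X] F] [Algebra K F] [IsFractionRing k[X] K]

/-- All the conclusions. -/
theorem conclB (hT : IsTower k k' K F) {p q s : ℕ} (hp : p.Prime)
    (hq : q = p ^ (s + 1)) {ζ : k} (hζ : IsPrimitiveRoot ζ q) {g : k[X]} {l : List (k × k)}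
    (hC : Base p g (l.map fun x => ((C x.1 : k[X]), x.2)))
    (hA : FamP p q g (l.map fun x => ((C x.1 : k[X]), x.2)) ∧
      TowP p q g (l.map fun x => ((C x.1 : k[X]), x.2)) ∧
      RK.IndP p q g (l.map fun x => ((C x.1 : k[X]), x.2))) {m : ℕ} (hm : 0 < m)
    (G : Fin m → k[X]) (hG : ∀ j, Irreducible (G j) ∧ (G j).Monic)
    (hGi : Function.Injective G) (hgG : g = ∏ j, G j) :
    Concl p q (m - 1) k k' F ((surf q g (nest p l)).map (algebraMap k[X] K)) := by
  obtain ⟨r, rfl⟩ : ∃ r, m = r + 1 := ⟨m - 1, by omega⟩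
  rw [Nat.add_sub_cancel, ← ff_surf]
  obtain ⟨h1, h2, h3⟩ := conclA hT hp hq hζ hC hA G hG hGi hgG
  exact ⟨SL.tateAt_of h1, SL.shaTriv_of h2, h3⟩

end concl

section fam

/-- The family. -/
theorem fam {p q s m : ℕ} (hp : p.Prime) (hq : q = p ^ (s + 1)) (hm : 3 ≤ m) (hcop : p.Coprime m)
    {O k k' K F : Type} [CommRing O] [IsDedekindDomain O] [Field k] [Algebra O k]
    [IsFractionRing O k] [Field k'] [Algebra k k'] [Field K] [Algebra k[X] K]
    [IsFractionRing k[X] K] [Field F] [Algebra k'[X] F] [IsFractionRing k'[X] F] [Algebra K F]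
    (hT : IsTower k k' K F) {ζ : k} (hζ : IsPrimitiveRoot ζ q) {ρ : Fin m → O}
    {l : List (O × O)} {Q : HeightOneSpectrum O} {P : Fin m → Fin m → HeightOneSpectrum O}
    (hD : IsData q ρ l Q P) :
    Concl p q (m - 1) k k' F ((surf q (∏ j, (X - C (algebraMap O k (ρ j))))
      (nest p (l.map fun x => (algebraMap O k x.1, algebraMap O k x.2)))).map
        (algebraMap k[X] K)) := by
  have hC := Pool.Agent.Y888.FT.stEx1 p q s m O k ρ Q P l hp hq hcop hm hD.divQ hD.once hD.prime
    hD.ne hD.first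
  have e : (l.map fun x => (C (algebraMap O k x.1), algebraMap O k x.2)) =
      ((l.map fun x => (algebraMap O k x.1, algebraMap O k x.2)).map
        fun x => ((C x.1 : k[X]), x.2)) := by
    rw [List.map_map]
    rfl
  rw [e] at hC
  refine conclB hT hp hq hζ hC.base (asm1 hp hq hζ hC) (by omega)
    (fun j => X - C (algebraMap O k (ρ j))) (fun j => ⟨irreducible_X_sub_C _, monic_X_sub_C _⟩) ?_
    rfl
  intro i j hij
  by_contra hne
  have h1 := hD.once i j hne
  have h2 : algebraMap O k (ρ i) = algebraMap O k (ρ j) := C_injective (sub_right_injective hij)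
  rw [IsFractionRing.injective O k h2, sub_self, map_zero] at h1
  exact exp_ne_zero h1.symm

/-- Existence of the data. -/
theorem exists_data (q m : ℕ) (O : Type) [CommRing O] [IsDedekindDomain O] (hO : Large O)
    (a : O) (as : List O) (ha : ∀ x ∈ a :: as, x ≠ 0) :
    ∃ (ρ : Fin m → O) (b : O) (Q : HeightOneSpectrum O) (P : Fin m → Fin m → HeightOneSpectrum O),
      IsData q ρ ((b, a) :: as.map fun x => (0, x)) Q P := by
  obtain ⟨ρ, Q, P, b, h1, h2, h3, h4, h5⟩ := Pool.Agent.Y46.FT.stEx2 q m O hO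
  refine ⟨ρ, b, Q, P, h1, h2, h3, ?_, ?_⟩
  · intro x hx
    rcases List.mem_cons.1 hx with rfl | hx
    · exact ha a (List.mem_cons_self ..)
    · obtain ⟨y, hy, rfl⟩ := List.mem_map.1 hx
      exact ha y (List.mem_cons_of_mem _ hy)
  · intro b' a' l' e
    obtain ⟨⟨rfl, rfl⟩, rfl⟩ : (b = b' ∧ a = a') ∧ (as.map fun x => ((0 : O), x)) = l' := by
      rw [List.cons.injEq, Prod.mk.injEq] at e
      exact e
    refine ⟨h4, h5, ?_⟩
    intro x hx
    obtain ⟨y, hy, rfl⟩ := List.mem_map.1 hx
    refine ⟨?_, fun i j _ => ?_⟩ <;>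
    · show HeightOneSpectrum.intValuation _ (0 : O) ≤ _
      rw [map_zero]
      exact bot_le

end fam

end Pool.Agent.Y160.HI
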